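import Pool.Agent.Lib.MP_5c318e_ag.RD.RExt

/-! X0: the tail lower bound for an extremal holomorphic function. Definitions, scalar lemmas and
the Levi form of `log (1 + |U|^2 exp (-ph))`. -/

set_option autoImplicit false
set_option linter.unusedSectionVars false

namespace Pool.Agent.Lib.MP_5c318e_ag.X0

open MeasureTheory Set Filter Topology Complex
open scoped ContDiff ComplexConjugate
open Pool.Agent.Lib.MP_9ff3e7_ag

noncomputable section

variable {ι : Type} [Fintype ι] {S : Type} [TopologicalSpace S] [MeasurableSpace S]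

/-- `log y`, where `y = (1 + |U|^2 exp (-ph))^(1/k)` -/
def lg (ph : S → ℝ) (k : ℝ) (U : S → ℂ) (x : S) : ℝ :=
  Real.log (1 + ‖U x‖ ^ 2 * Real.exp (-ph x)) / k

/-- the measure `exp (-chi) mu` -/
def ms (D : RD ι S) (chi : S → ℝ) : Measure S :=
  D.μ.withDensity fun x => ENNReal.ofReal (Real.exp (-chi x))

/-- `int y^ga` -/
def II (D : RD ι S) (chi ph : S → ℝ) (k ga : ℝ) (U : S → ℂ) : ENNReal :=
  ∫⁻ x, ENNReal.ofReal (Real.exp (ga * lg ph k U x)) ∂ms D chi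

/-- `int |W|^2 exp (-ph) y_U^(-a)` -/
def QQ (D : RD ι S) (chi ph : S → ℝ) (k a : ℝ) (U W : S → ℂ) : ENNReal :=
  ∫⁻ x, ENNReal.ofReal (‖W x‖ ^ 2 * Real.exp (-ph x) * Real.exp (-(a * lg ph k U x))) ∂ms D chi

/-- a convex ramp with bounded second derivative -/
theorem exists_ramp2 : ∃ M : ℝ, 0 < M ∧ ∃ g : ℝ → ℝ, ContDiff ℝ ∞ g ∧ (∀ t, t - 1 ≤ g t) ∧
    (∀ t, g t ≤ max t 0) ∧ (∀ t, 0 ≤ deriv g t) ∧ (∀ t, deriv g t ≤ 1) ∧
    (∀ t, t < 0 → deriv g t = 0) ∧ (∀ t, 1 ≤ t → deriv g t = 1) ∧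
    (∀ t, 0 ≤ deriv (deriv g) t) ∧ (∀ t, deriv (deriv g) t ≤ M) ∧
    ∀ t, t < 0 ∨ 1 < t → deriv (deriv g) t = 0 := by
  obtain ⟨g, g1, g2, -, g4, g5, -, g7, g8, -, c, -, c1, -, c3⟩ :=
    F.exists_ramp (a := 0) (b := 1) one_pos
  have d1 : ContDiff ℝ ∞ (deriv g) := (contDiff_infty_iff_deriv.1 g1).2
  have z : ∀ t, t < 0 → deriv g t = 0 := fun t ht => by
    have : g =ᶠ[𝓝 t] fun _ => 0 := (eventually_lt_nhds ht).mono fun u hu => g2 u hu.le
    rw [this.deriv_eq, deriv_const]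
  have zz : ∀ t, t < 0 ∨ 1 < t → deriv (deriv g) t = 0 := by
    rintro t (ht | ht)
    · have : deriv g =ᶠ[𝓝 t] fun _ => 0 := (eventually_lt_nhds ht).mono fun u hu => z u hu
      rw [this.deriv_eq, deriv_const]
    · have : deriv g =ᶠ[𝓝 t] fun _ => 1 := (eventually_gt_nhds ht).mono fun u hu => g7 u hu.le
      rw [this.deriv_eq, deriv_const]
  obtain ⟨M, hM⟩ := (isCompact_Icc (a := (0 : ℝ)) (b := 1)).exists_bound_of_continuousOn
    (d1.continuous_deriv (by simp)).continuousOn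
  have df : Differentiable ℝ g := g1.differentiable (by simp)
  have ga : Antitone fun t => g t - t :=
    antitone_of_deriv_nonpos (df.sub differentiable_id) fun t => by
      rw [((df t).hasDerivAt.fun_sub (hasDerivAt_id' t)).deriv]
      linarith [g5 t]
  refine ⟨|M| + 1, by positivity, g, g1, fun t => by linarith [c3 t], fun t => ?_, g4, g5, z, g7,
    g8, fun t => ?_, zz⟩
  · rcases le_total t 0 with ht | ht
    · rw [g2 t ht]; exact le_max_right _ _
    · have := ga ht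
      simp only [g2 0 le_rfl, sub_zero] at this
      exact le_trans (by linarith) (le_max_left _ _)
  · by_cases ht : t ∈ Icc (0 : ℝ) 1
    · have := hM t ht
      rw [Real.norm_eq_abs] at this
      linarith [le_abs_self (deriv (deriv g) t), le_abs_self M]
    · rw [zz t (by
        rw [mem_Icc, not_and_or, not_le, not_le] at ht
        exact ht)]
      positivity

/-- an absolute constant -/
def cM : ℝ := 4 * exists_ramp2.choose

theorem cM_pos : 0 < cM := mul_pos four_pos exists_ramp2.choose_spec.1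

/-- the data common to all forms -/
structure Dat (D : RD ι S) (chi ph : S → ℝ) (k ga th be : ℝ) : Prop where
  exh : ∃ s, D.Exh s
  psh : D.Psh ph
  sm : D.Sm chi
  lev : ∀ x ξ, 0 ≤ D.levi ph x ξ / k + D.levi chi x ξ
  fin : ms D chi univ ≠ ⊤
  ga0 : 0 < ga
  ga1 : ga ≤ 1
  th0 : 0 ≤ th
  be0 : 0 < be
  big : 1 + th + be ≤ k

/-- the conclusion -/
def Tail (D : RD ι S) (chi ph : S → ℝ) (k ga th be : ℝ) (U : S → ℂ) : Prop :=
  II D chi ph k ga U ≤ 2 * ms D chi univ ∧ ∀ l : ℝ, 0 ≤ l →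
    ms D chi univ ≤
      4 * ∫⁻ x in {x | l ≤ lg ph k U x}, ENNReal.ofReal (Real.exp (ga * lg ph k U x)) ∂ms D chi +
      ENNReal.ofReal (cM / be * Real.exp ((1 + th + be) * (l + 1))) *
        ms D chi {x | l ≤ lg ph k U x ∧ lg ph k U x ≤ l + 1}

/-! ### scalar inequalities -/

theorem exp_lg {a k p : ℝ} (ha : 0 ≤ a) :
    Real.exp (p * (Real.log (1 + a) / k)) = (1 + a) ^ (p / k) := by
  rw [Real.rpow_def_of_pos (by linarith)]
  congr 1
  ring

/-- concavity of `(1 + t)^p` -/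
theorem conc {a b p : ℝ} (ha : 0 ≤ a) (hb : 0 ≤ b) (p0 : 0 ≤ p) (p1 : p ≤ 1) :
    (1 + b) ^ p + p * (a * (1 + a) ^ (p - 1)) ≤ (1 + a) ^ p + p * (b * (1 + a) ^ (p - 1)) := by
  have A : 0 < 1 + a := by linarith
  have h := rpow_one_add_le_one_add_mul_self (s := (b - a) / (1 + a))
    (by rw [le_div_iff₀ A]; linarith) p0 p1
  have e : 1 + (b - a) / (1 + a) = (1 + b) / (1 + a) := by field_simp; ring
  have P : 0 < (1 + a) ^ p := Real.rpow_pos_of_pos A p
  rw [e, Real.div_rpow (by linarith) A.le, div_le_iff₀ P] at h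
  rw [Real.rpow_sub_one A.ne']
  have : (1 + p * ((b - a) / (1 + a))) * (1 + a) ^ p =
    (1 + a) ^ p + p * (b * ((1 + a) ^ p / (1 + a))) - p * (a * ((1 + a) ^ p / (1 + a))) := by
    field_simp; ring
  linarith

theorem low {a p : ℝ} (ha : 0 ≤ a) (p1 : p ≤ 1) : (1 + a) ^ p ≤ 1 + a * (1 + a) ^ (p - 1) := by
  have A : 0 < 1 + a := by linarith
  have h : (1 + a) ^ (p - 1) ≤ 1 := Real.rpow_le_one_of_one_le_of_nonpos (by linarith) (by linarith)
  have e : (1 + a) ^ p = (1 + a) ^ (p - 1) * (1 + a) := by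
    rw [Real.rpow_sub_one A.ne']; field_simp
  rw [e]
  linarith

theorem scale_up {a p t : ℝ} (ha : 0 ≤ a) (p0 : 0 ≤ p) (ht : 1 ≤ t) :
    (1 + t * a) ^ p ≤ t ^ p * (1 + a) ^ p := by
  rw [← Real.mul_rpow (by linarith) (by linarith)]
  exact Real.rpow_le_rpow (by positivity) (by linarith) p0

theorem scale_down {a p t : ℝ} (ha : 0 ≤ a) (p0 : 0 ≤ p) (p1 : p ≤ 1) (ht : 0 ≤ t) :
    (1 + t * a) ^ p ≤ 1 + t ^ p * (1 + a) ^ p := by
  refine (Real.rpow_add_le_add_rpow zero_le_one (by positivity) p0 p1).trans ?_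
  rw [Real.one_rpow, Real.mul_rpow ht ha]
  gcongr
  linarith

/-- the arithmetic of the near maximiser -/
theorem arith {N IU IV QU QV : ENNReal} {p : ℝ} (p0 : 0 < p) (p1 : p ≤ 1) (hN : N ≠ ⊤)
    (h1 : IV + ENNReal.ofReal p * QU ≤ IU + ENNReal.ofReal p * QV)
    (h2 : 2 * N ≤ ENNReal.ofReal (Real.exp (p / 8)) * IV)
    (h3 : 2 * N ≤ ENNReal.ofReal (Real.exp (p / 8)) * IU) (h4 : IU ≤ N + QU) (h5 : IU ≤ 2 * N) :
    N ≤ 2 * QV := by
  by_cases hV : QV = ⊤
  · rw [hV, ENNReal.mul_top (by norm_num)]; exact le_top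
  have hU : IU ≠ ⊤ := ne_top_of_le_ne_top (ENNReal.mul_ne_top (by norm_num) hN) h5
  have hR : IU + ENNReal.ofReal p * QV ≠ ⊤ :=
    ENNReal.add_ne_top.2 ⟨hU, ENNReal.mul_ne_top ENNReal.ofReal_ne_top hV⟩
  obtain ⟨hI, hQ⟩ := ENNReal.add_ne_top.1 (ne_top_of_le_ne_top hR h1)
  have hQ' : QU ≠ ⊤ := fun h => hQ (by
    rw [h, ENNReal.mul_top (by simpa using p0)])
  have E : 0 < Real.exp (p / 8) := Real.exp_pos _
  have two : (2 : ENNReal) ≠ ⊤ := by norm_num
  have r1 := ENNReal.toReal_mono hR h1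
  have r2 := ENNReal.toReal_mono (ENNReal.mul_ne_top ENNReal.ofReal_ne_top hI) h2
  have r3 := ENNReal.toReal_mono (ENNReal.mul_ne_top ENNReal.ofReal_ne_top hU) h3
  have r4 := ENNReal.toReal_mono (ENNReal.add_ne_top.2 ⟨hN, hQ'⟩) h4
  have r5 := ENNReal.toReal_mono (ENNReal.mul_ne_top two hN) h5
  rw [ENNReal.toReal_add hI hQ, ENNReal.toReal_add hU (ENNReal.mul_ne_top ENNReal.ofReal_ne_top hV),
    ENNReal.toReal_mul, ENNReal.toReal_mul, ENNReal.toReal_ofReal p0.le] at r1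
  rw [ENNReal.toReal_mul, ENNReal.toReal_mul, ENNReal.toReal_ofReal E.le] at r2 r3
  rw [ENNReal.toReal_add hN hQ'] at r4
  rw [ENNReal.toReal_mul] at r5
  rw [← ENNReal.toReal_le_toReal hN (ENNReal.mul_ne_top two hV), ENNReal.toReal_mul]
  simp only [ENNReal.toReal_ofNat] at *
  have n0 : 0 ≤ N.toReal := ENNReal.toReal_nonneg
  generalize N.toReal = n at *
  generalize IU.toReal = iu at *
  generalize IV.toReal = iv at *
  generalize QU.toReal = qu at *
  generalize QV.toReal = qv at *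
  have e1 : 1 - p / 8 ≤ Real.exp (-(p / 8)) := by linarith [Real.add_one_le_exp (-(p / 8))]
  have e2 : Real.exp (-(p / 8)) * Real.exp (p / 8) = 1 := by rw [← Real.exp_add]; simp
  have E' : 0 < Real.exp (-(p / 8)) := Real.exp_pos _
  have key : ∀ i : ℝ, 2 * n ≤ Real.exp (p / 8) * i → 2 * n - p * n / 4 ≤ i := fun i hi => by
    have a := mul_le_mul_of_nonneg_left hi E'.le
    rw [← mul_assoc _ _ i, e2, one_mul] at a
    nlinarith [mul_le_mul_of_nonneg_right e1 n0]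
  have a2 := key _ r2
  have a3 := key _ r3
  have a4 : 3 * n / 4 ≤ qu := by nlinarith
  have a5 : p * (n / 2) ≤ p * qv := by nlinarith [mul_le_mul_of_nonneg_left a4 p0.le]
  linarith [le_of_mul_le_mul_left a5 p0]

/-! ### the Levi form -/

theorem levi_lg0 {φ : (ι → ℂ) → ℝ} {f : (ι → ℂ) → ℂ} {x : ι → ℂ} (hφ : ContDiffAt ℝ 2 φ x)
    (hf : AnalyticAt ℂ f x) (ξ : ι → ℂ) (h0 : 0 ≤ F.levi φ x ξ) :
    -F.levi φ x ξ ≤ F.levi (fun y => Real.log (1 + ‖f y‖ ^ 2 * Real.exp (-φ y))) x ξ := by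
  have cA : ContDiffAt ℝ 2 (fun y => ‖f y‖ ^ 2) x := F.contDiffAt_normSq hf
  have cE : ContDiffAt ℝ 2 (fun y => Real.exp (-φ y)) x := hφ.neg.exp
  have dA := cA.differentiableAt (by norm_num)
  have dE := cE.differentiableAt (by norm_num)
  have dφ := hφ.differentiableAt (by norm_num)
  have P : 0 < 1 + ‖f x‖ ^ 2 * Real.exp (-φ x) := by positivity
  have d1 : F.dbar (fun y => ((Real.exp (-φ y) : ℝ) : ℂ)) x ξ =
      -((Real.exp (-φ x) : ℝ) * F.dbar (fun y => (φ y : ℂ)) x ξ) := by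
    rw [F.dbar_exp (φ := fun y => -φ y) dφ.neg]
    simp only [ofReal_neg]
    rw [F.dbar_neg]; ring
  have d2 : F.dbar (fun y => ((1 + ‖f y‖ ^ 2 * Real.exp (-φ y) : ℝ) : ℂ)) x ξ =
      (Real.exp (-φ x) : ℝ) * f x * (conj (fderiv ℂ f x ξ) -
        conj (f x) * F.dbar (fun y => (φ y : ℂ)) x ξ) := by
    simp only [ofReal_add, ofReal_mul]
    rw [F.dbar_add (differentiableAt_const _)
      ((F.diffAt_ofReal dA).fun_mul (F.diffAt_ofReal dE)), F.dbar_const, zero_add,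
      F.dbar_mul (F.diffAt_ofReal dA) (F.diffAt_ofReal dE), F.dbar_normSq hf.differentiableAt, d1]
    have : ((‖f x‖ ^ 2 : ℝ) : ℂ) = f x * conj (f x) := by rw [mul_conj, Complex.sq_norm]
    rw [this]; ring
  have l1 : F.levi (fun y => 1 + ‖f y‖ ^ 2 * Real.exp (-φ y)) x ξ =
      Real.exp (-φ x) * (‖conj (fderiv ℂ f x ξ) -
        conj (f x) * F.dbar (fun y => (φ y : ℂ)) x ξ‖ ^ 2 - ‖f x‖ ^ 2 * F.levi φ x ξ) := by
    rw [F.levi_add contDiffAt_const (cA.mul cE), F.levi_const, zero_add, F.levi_mul cA cE,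
      F.levi_normSq hf, F.levi_exp (φ := fun y => -φ y) hφ.neg, F.levi_neg hφ,
      F.dbar_normSq hf.differentiableAt, d1]
    simp only [ofReal_neg]
    rw [F.dbar_neg, norm_neg]
    generalize F.dbar (fun y => (φ y : ℂ)) x ξ = q
    generalize fderiv ℂ f x ξ = w
    generalize f x = u
    generalize Real.exp (-φ x) = E
    simp only [Complex.sq_norm, normSq_apply, map_neg, map_mul, conj_ofReal, mul_re, mul_im, neg_re,
      neg_im, conj_re, conj_im, sub_re, sub_im, ofReal_re, ofReal_im]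
    ring
  rw [F.levi_log (contDiffAt_const.add (cA.mul cE)) P.ne', d2, l1, norm_mul, norm_mul, mul_pow,
    mul_pow, norm_real, Real.norm_eq_abs, sq_abs]
  have c0 := sq_nonneg ‖conj (fderiv ℂ f x ξ) - conj (f x) * F.dbar (fun y => (φ y : ℂ)) x ξ‖
  have E0 := Real.exp_pos (-φ x)
  have A0 := sq_nonneg ‖f x‖
  generalize ‖conj (fderiv ℂ f x ξ) - conj (f x) * F.dbar (fun y => (φ y : ℂ)) x ξ‖ ^ 2 = c at *
  generalize Real.exp (-φ x) = E at *
  generalize ‖f x‖ ^ 2 = A at *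
  generalize F.levi φ x ξ = L at *
  have : E * (c - A * L) / (1 + A * E) - E ^ 2 * A * c / (1 + A * E) ^ 2 + L =
      E * c / (1 + A * E) ^ 2 + L / (1 + A * E) := by
    field_simp; ring
  have : 0 ≤ E * c / (1 + A * E) ^ 2 + L / (1 + A * E) := by positivity
  linarith

variable {D : RD ι S} {chi ph : S → ℝ} {k : ℝ} {U : S → ℂ}

theorem lg_nonneg (hk : 0 ≤ k) (x : S) : 0 ≤ lg ph k U x :=
  div_nonneg (Real.log_nonneg (le_add_of_nonneg_right (by positivity))) hk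

theorem exp_mul_lg (a : ℝ) (x : S) :
    Real.exp (a * lg ph k U x) = (1 + ‖U x‖ ^ 2 * Real.exp (-ph x)) ^ (a / k) :=
  exp_lg (by positivity)

theorem nrm_le (hk : k ≠ 0) (x : S) :
    ‖U x‖ ^ 2 * Real.exp (-ph x) ≤ Real.exp (k * lg ph k U x) := by
  rw [exp_mul_lg, div_self hk, Real.rpow_one]
  linarith

theorem log_sm (hph : D.Sm ph) (hU : D.Sm U) :
    D.Sm fun x => Real.log (1 + ‖U x‖ ^ 2 * Real.exp (-ph x)) :=
  ((RD.sm_const 1).add (hU.normSq.mul hph.neg.rexp)).comp_at fun _ =>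
    Real.contDiffAt_log.2 (by positivity)

theorem lg_eq : lg ph k U = fun x => k⁻¹ * Real.log (1 + ‖U x‖ ^ 2 * Real.exp (-ph x)) := by
  funext x; rw [lg, div_eq_inv_mul]

theorem lg_sm (hph : D.Sm ph) (hU : D.Sm U) : D.Sm (lg ph k U) := by
  rw [lg_eq]; exact (RD.sm_const _).mul (log_sm hph hU)

variable [BorelSpace S]

theorem levi_lg (hph : D.Psh ph) (hU : D.Hol U) (hk : 0 ≤ k) (x : S) (ξ : ι → ℂ) :
    -(D.levi ph x ξ / k) ≤ D.levi (lg ph k U) x ξ := by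
  rw [lg_eq, RD.levi_cmul _ (log_sm hph.1 hU.sm), div_eq_inv_mul, ← mul_neg]
  exact mul_le_mul_of_nonneg_left (levi_lg0 (hph.1.two x) (hU.ana x) ξ (hph.2 x ξ))
    (inv_nonneg.2 hk)

theorem lint_ms (hchi : D.Sm chi) {g : S → ℝ} (hg : Measurable g) :
    ∫⁻ x, ENNReal.ofReal (g x) ∂ms D chi =
      ∫⁻ x, ENNReal.ofReal (g x * Real.exp (-chi x)) ∂D.μ := by
  rw [ms, lintegral_withDensity_eq_lintegral_mul _ hchi.neg.rexp.cont.measurable.ennreal_ofReal
    hg.ennreal_ofReal]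
  refine lintegral_congr fun x => ?_
  rw [Pi.mul_apply, mul_comm (g x), ENNReal.ofReal_mul (Real.exp_pos _).le]

theorem ms_open (hchi : D.Sm chi) {O : Set S} (hO : IsOpen O) (hne : O.Nonempty) :
    ms D chi O ≠ 0 := fun h => by
  have m := hchi.neg.rexp.cont.measurable.ennreal_ofReal
  rw [ms, withDensity_apply_eq_zero m] at h
  have e : {x | ENNReal.ofReal (Real.exp (-chi x)) ≠ 0} = univ :=
    eq_univ_of_forall fun x => by simpa using Real.exp_pos _
  rw [e, univ_inter] at h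
  exact hO.measure_ne_zero D.μ hne h

end

end Pool.Agent.Lib.MP_5c318e_ag.X0
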