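import Pool.Agent.Lib.MP_5c318e_ag.X0.Main

/-! X0 for a weight made of two plurisubharmonic functions, and the point with a large value. -/

set_option autoImplicit false
set_option linter.unusedSectionVars false

namespace Pool.Agent.Lib.MP_5c318e_ag.X0

open MeasureTheory Set Filter Topology Complex
open Pool.Agent.Lib.MP_9ff3e7_ag

noncomputable section

variable {ι : Type} [Fintype ι] {S : Type} [TopologicalSpace S] [MeasurableSpace S]
  [BorelSpace S] [T2Space S] {D : RD ι S}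

theorem psh_sos {α : Type} [Fintype α] {f : α → S → ℂ} (hf : ∀ a, D.Hol (f a))
    (h0 : ∀ x, 0 < ∑ a, ‖f a x‖ ^ 2) : D.Psh fun x => Real.log (∑ a, ‖f a x‖ ^ 2) := by
  refine ⟨(RD.sm_sum _ fun a _ => (hf a).sm.normSq).comp_at fun x =>
    Real.contDiffAt_log.2 (h0 x).ne', fun x ξ => ?_⟩
  simpa [RD.levi] using F.levi_log_sos_nonneg Finset.univ (f := fun a z => f a (D.sec x z))
    (fun a _ => (hf a).ana x) le_rfl (by simpa using h0 _) ξ

theorem cs {κ : Type} [Fintype κ] (c s : κ → ℂ) :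
    ‖∑ i, c i * s i‖ ^ 2 ≤ (∑ i, ‖c i‖ ^ 2) * ∑ i, ‖s i‖ ^ 2 := by
  refine le_trans (pow_le_pow_left₀ (norm_nonneg _) (norm_sum_le _ _) 2) ?_
  simp only [norm_mul]
  exact Finset.sum_mul_sq_le_sq_mul_sq _ _ _

theorem wt_le {A N C p w t k : ℝ} (hA : 0 ≤ A) (hN : 0 ≤ N) (hC : 1 ≤ C) (h : A ≤ C * N)
    (hk : 1 ≤ k) (e : p / k = t + w) :
    (Real.exp p + N) ^ (-((k - 1) / k)) * (Real.exp t)⁻¹ ≤ C * (Real.exp (-p) *
      Real.exp (-((k - 1 - 0) * (Real.log (1 + A * Real.exp (-p)) / k))) * Real.exp w) := by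
  have k0 : 0 < k := by linarith
  have E := Real.exp_pos p
  have E' := Real.exp_pos (-p)
  have h1 : p + Real.log (1 + A * Real.exp (-p)) ≤ Real.log C + Real.log (Real.exp p + N) := by
    rw [← Real.log_mul (by positivity) (by positivity)]
    nth_rewrite 1 [← Real.log_exp p]
    rw [← Real.log_mul (by positivity) (by positivity)]
    refine Real.log_le_log (by positivity) ?_
    rw [mul_add, mul_one, mul_left_comm, ← Real.exp_add, add_neg_cancel, Real.exp_zero, mul_one]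
    nlinarith
  have c0 := Real.log_nonneg hC
  have q0 : 0 ≤ (k - 1) / k := div_nonneg (by linarith) k0.le
  have q1 : (k - 1) / k = 1 - 1 / k := by field_simp
  have q2 : 0 < 1 / k := by positivity
  rw [Real.rpow_def_of_pos (by positivity), ← Real.exp_neg, ← Real.exp_add, ← Real.exp_add,
    ← Real.exp_add, ← Real.exp_log (x := C) (by linarith), ← Real.exp_add, Real.exp_le_exp,
    sub_zero, ← mul_div_assoc, mul_div_right_comm]
  have h2 := mul_le_mul_of_nonneg_left h1 q0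
  have h3 : (k - 1) / k * p = p - (t + w) := by rw [← e]; field_simp
  have h4 : (k - 1) / k * Real.log C ≤ Real.log C := by rw [q1]; nlinarith
  generalize (k - 1) / k = q at *
  nlinarith

/-- X0 for the weight `a u + (k / m) v` and the measure `exp (v / m) μ` -/
theorem two (exh : ∃ s, D.Exh s) {u v chi ph : S → ℝ} (hu : D.Psh u) (hv : D.Psh v)
    {a m k ga be : ℝ} (ha : 0 ≤ a) (hm : 0 < m) (ga0 : 0 < ga) (ga1 : ga ≤ 1) (be0 : 0 < be)
    (big : 1 + be ≤ k) (hchi : ∀ x, chi x = -(m⁻¹ * v x))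
    (hph : ∀ x, ph x = a * u x + k / m * v x) (hf : ms D chi univ ≠ ⊤)
    {κ : Type} [Fintype κ] {s : Option κ → S → ℂ} (hs : ∀ i, D.Hol (s i))
    (h0 : ∀ c : κ → ℂ, ¬ ∀ x, s none x = ∑ i, c i * s (some i) x)
    (hI : II D chi ph k ga (s none) ≠ ⊤)
    (sat : ∀ f, D.Hol f → ∫⁻ x, ENNReal.ofReal (‖f x‖ ^ 2) *
      (ENNReal.ofReal (Real.exp (ph x) + ∑ i, ‖s i x‖ ^ 2) ^ (-((k - 1) / k)) *
        (ENNReal.ofReal (Real.exp (a * u x / k)))⁻¹) ∂D.μ < ⊤ →
      ∃ c : κ → ℂ, ∀ x, f x = ∑ i, c i * s (some i) x) :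
    ∃ c : Option κ → ℂ, c none ≠ 0 ∧ Tail D chi ph k ga 0 be fun x => ∑ i, c i * s i x := by
  obtain rfl : chi = _ := funext hchi
  obtain rfl : ph = _ := funext hph
  have k0 : 0 < k := by linarith
  have s1 := (RD.sm_const (D := D) a).mul hu.1
  have s2 := (RD.sm_const (D := D) (k / m)).mul hv.1
  have s3 := ((RD.sm_const (D := D) m⁻¹).mul hv.1).neg
  have l1 : ∀ x ξ, D.levi (fun x => a * u x + k / m * v x) x ξ =
      a * D.levi u x ξ + k / m * D.levi v x ξ := fun x ξ => by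
    rw [← RD.levi_cmul a hu.1, ← RD.levi_cmul (k / m) hv.1]
    exact F.levi_add (s1.two x) (s2.two x) ξ
  have l2 : ∀ x ξ, D.levi (fun x => -(m⁻¹ * v x)) x ξ = -m⁻¹ * D.levi v x ξ := fun x ξ => by
    rw [← RD.levi_cmul _ hv.1]; simp only [neg_mul]
  have mem : ∀ {α : Type} [Fintype α] (t : α → S → ℂ) (U : S → ℂ), U ∈ Submodule.span ℂ (range t) ↔
      ∃ c : α → ℂ, ∀ x, U x = ∑ i, c i * t i x := fun t U => by
    rw [Submodule.mem_span_range_iff_exists_fun]
    refine exists_congr fun c => ?_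
    rw [eq_comm, funext_iff]
    simp only [Finset.sum_apply, Pi.smul_apply, smul_eq_mul]
  have := FiniteDimensional.span_of_finite ℂ (finite_range s)
  obtain ⟨U, hU, hU', hT⟩ := fin (D := D) (th := 0) ⟨exh, ⟨s1.add s2, fun x ξ => by
      rw [l1]; have := hu.2 x ξ; have := hv.2 x ξ; positivity⟩, s3, fun x ξ => by
      rw [l1, l2, show (a * D.levi u x ξ + k / m * D.levi v x ξ) / k + -m⁻¹ * D.levi v x ξ =
        a * D.levi u x ξ / k by field_simp; ring]
      have := hu.2 x ξ; positivity, hf, ga0, ga1, le_rfl, be0, by linarith⟩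
    (Submodule.span ℂ (range s)) (Submodule.span ℂ (range fun i => s (some i)))
    (fun U hU => by
      obtain ⟨c, hc⟩ := (mem s U).1 hU
      rw [funext hc]
      exact RD.hol_sum _ fun i _ => (RD.hol_const _).mul (hs i))
    ⟨s none, Submodule.subset_span ⟨none, rfl⟩, fun h => ((mem _ _).1 h).elim h0, hI⟩
    fun U hU W hW hQ => by
      obtain ⟨c, hc⟩ := (mem s U).1 hU
      have cU : Continuous U := by
        rw [funext hc]; exact (RD.hol_sum _ fun i _ => (RD.hol_const _).mul (hs i)).cont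
      have h' : W ∈ Submodule.span ℂ (range fun i => s (some i)) := (mem _ _).2 (sat W hW ?_)
      · exact ⟨Submodule.span_mono (range_comp_subset_range some s) h', h'⟩
      have cp := (s1.add s2).cont
      have cW := hW.cont
      rw [QQ, lint_ms s3 (by unfold lg; fun_prop)] at hQ
      refine lt_of_le_of_lt ?_ (ENNReal.mul_lt_top (a := ENNReal.ofReal (1 + ∑ i, ‖c i‖ ^ 2))
        ENNReal.ofReal_lt_top hQ.lt_top)
      rw [← lintegral_const_mul' _ _ ENNReal.ofReal_ne_top]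
      refine lintegral_mono fun x => ?_
      have n0 : 0 ≤ ∑ i, ‖s i x‖ ^ 2 := by positivity
      have c0 : 0 ≤ ∑ i, ‖c i‖ ^ 2 := by positivity
      rw [ENNReal.ofReal_rpow_of_pos (by positivity), ← ENNReal.ofReal_inv_of_pos (by positivity),
        ← ENNReal.ofReal_mul (by positivity), ← ENNReal.ofReal_mul (by positivity),
        ← ENNReal.ofReal_mul (by positivity)]
      refine ENNReal.ofReal_le_ofReal ((mul_le_mul_of_nonneg_left (wt_le (A := ‖U x‖ ^ 2)
        (C := 1 + ∑ i, ‖c i‖ ^ 2) (w := m⁻¹ * v x) (by positivity) n0 (by linarith)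
        (by rw [hc]; nlinarith [cs c fun i => s i x]) (by linarith) (by field_simp))
        (by positivity)).trans_eq ?_)
      rw [lg, neg_neg]; ring
  obtain ⟨c, hc⟩ := (mem s U).1 hU
  refine ⟨c, fun h => hU' ((mem _ _).2 ⟨fun i => c (some i), fun x => ?_⟩), funext hc ▸ hT⟩
  rw [hc, Fintype.sum_option, h, zero_mul, zero_add]

/-- many points at which `lg` is large and the majorant is not much larger -/
theorem point (nu : Measure S) (h0 : nu univ ≠ 0) {Psi : S → ℝ} (hm : Measurable Psi)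
    {ga g th be kap : ℝ} (ga0 : 0 < ga) (g0 : 0 < g) (be0 : 0 < be)
    (hI : ∫⁻ x, ENNReal.ofReal (Real.exp (ga * Psi x)) ∂nu ≠ ⊤)
    (hg : ∫⁻ x, ENNReal.ofReal (Real.exp (g * Psi x)) ∂nu ≠ ⊤) (hk : 1 + th + be < g * (1 + kap)) :
    ∃ l1 : ℝ, 0 ≤ l1 ∧ ∀ (D : RD ι S) (chi ph : S → ℝ) (k : ℝ) (U : S → ℂ), ms D chi = nu →
      Tail D chi ph k ga th be U → (∀ x, lg ph k U x ≤ Psi x) → ∀ l, l1 ≤ l →
      nu {x | l ≤ lg ph k U x ∧ lg ph k U x ≤ l + 1 ∧ Psi x ≤ (1 + kap) * l} ≠ 0 := by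
  obtain ⟨l0, h1, H⟩ := tail (ι := ι) nu h0 hm ga0 hI
  have t1 : Tendsto (fun l : ℝ => cM / be * Real.exp (1 + th + be) *
      Real.exp (-((g * (1 + kap) - (1 + th + be)) * l))) atTop (𝓝 0) := by
    simpa using (Real.tendsto_exp_neg_atTop_nhds_zero.comp
      (tendsto_id.const_mul_atTop (sub_pos.2 hk))).const_mul (cM / be * Real.exp (1 + th + be))
  have t2 := ENNReal.Tendsto.mul_const (ENNReal.tendsto_ofReal t1)
    (b := 2 * ∫⁻ x, ENNReal.ofReal (Real.exp (g * Psi x)) ∂nu)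
    (Or.inr (ENNReal.mul_ne_top (by norm_num) hg))
  rw [ENNReal.ofReal_zero, zero_mul] at t2
  obtain ⟨l2, h2⟩ := eventually_atTop.1 (t2.eventually (gt_mem_nhds (pos_iff_ne_zero.2 h0)))
  refine ⟨max l0 l2, h1.trans (le_max_left _ _), fun D chi ph k U e hT hP l hl hz => ?_⟩
  refine (h2 l ((le_max_right _ _).trans hl)).not_ge
    ((H D chi ph k th be U e hT hP l ((le_max_left _ _).trans hl)).trans ?_)
  have a1 : nu {x | l ≤ lg ph k U x ∧ lg ph k U x ≤ l + 1} ≤ nu {x | (1 + kap) * l ≤ Psi x} := by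
    rw [← zero_add (nu {x | (1 + kap) * l ≤ Psi x}), ← hz]
    refine le_trans (measure_mono fun x hx => ?_) (measure_union_le _ _)
    exact (le_total (Psi x) _).imp (fun h => ⟨hx.1, hx.2, h⟩) id
  have a2 : nu {x | (1 + kap) * l ≤ Psi x} ≤ ENNReal.ofReal (Real.exp (-(g * (1 + kap) * l))) *
      ∫⁻ x, ENNReal.ofReal (Real.exp (g * Psi x)) ∂nu := by
    rw [← lintegral_const_mul' _ _ ENNReal.ofReal_ne_top, ← setLIntegral_one]
    refine le_trans (setLIntegral_mono (by fun_prop) fun x (hx : _ * l ≤ Psi x) => ?_)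
      (setLIntegral_le_lintegral _ _)
    rw [← ENNReal.ofReal_mul (by positivity), ← Real.exp_add, ENNReal.one_le_ofReal]
    exact Real.one_le_exp (by nlinarith [mul_le_mul_of_nonneg_left hx g0.le])
  have c0 := cM_pos
  refine (mul_le_mul_right (mul_le_mul_right (a1.trans a2) _) _).trans_eq ?_
  rw [← mul_assoc (ENNReal.ofReal _), ← ENNReal.ofReal_mul (by positivity), mul_left_comm,
    mul_assoc (cM / be), mul_assoc (cM / be), ← Real.exp_add, ← Real.exp_add]
  congr 4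
  ring

end

end Pool.Agent.Lib.MP_5c318e_ag.X0
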