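import Pool.Agent.Lib.MP_5c318e_ag.X0.Defs

/-! X0: the competitor, by one Hoermander estimate with a weight convex in `log y`. -/

set_option autoImplicit false
set_option linter.unusedSectionVars false

namespace Pool.Agent.Lib.MP_5c318e_ag.X0

open MeasureTheory Set Filter Topology Complex
open scoped ContDiff ComplexConjugate
open Pool.Agent.Lib.MP_9ff3e7_ag

noncomputable section

variable {ι : Type} [Fintype ι] {S : Type} [TopologicalSpace S] [MeasurableSpace S]
  [BorelSpace S] [T2Space S] {D : RD ι S} {chi ph : S → ℝ} {k ga th be : ℝ} {U : S → ℂ}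

theorem nsq_add (a b : ℂ) : ‖a + b‖ ^ 2 ≤ 2 * ‖a‖ ^ 2 + 2 * ‖b‖ ^ 2 := by
  have := norm_add_le a b
  nlinarith [norm_nonneg (a + b), norm_nonneg a, norm_nonneg b, sq_nonneg (‖a‖ - ‖b‖)]

theorem lint_two {ν : Measure S} {f g h : S → ℝ} (hg : Measurable g) (hh : Measurable h)
    (g0 : ∀ x, 0 ≤ g x) (h0 : ∀ x, 0 ≤ h x) (H : ∀ x, f x ≤ 2 * g x + 2 * h x) :
    ∫⁻ x, ENNReal.ofReal (f x) ∂ν ≤
      2 * ∫⁻ x, ENNReal.ofReal (g x) ∂ν + 2 * ∫⁻ x, ENNReal.ofReal (h x) ∂ν := by
  rw [← lintegral_const_mul _ hg.ennreal_ofReal, ← lintegral_const_mul _ hh.ennreal_ofReal,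
    ← lintegral_add_left (hg.ennreal_ofReal.const_mul _)]
  refine lintegral_mono fun x => (ENNReal.ofReal_le_ofReal (H x)).trans (le_of_eq ?_)
  rw [ENNReal.ofReal_add (by linarith [g0 x]) (by linarith [h0 x]),
    ENNReal.ofReal_mul zero_le_two, ENNReal.ofReal_mul zero_le_two, ENNReal.ofReal_ofNat]

/-- the cut-off function and its holomorphic approximation -/
theorem approx (h : Dat D chi ph k ga th be) (hU : D.Hol U) {l : ℝ} (hl : 0 ≤ l) :
    ∃ (θ : S → ℝ) (G : S → ℂ), Measurable θ ∧ (∀ x, 0 ≤ θ x) ∧ (∀ x, θ x ≤ 1) ∧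
      (∀ x, lg ph k U x < l → θ x = 0) ∧ (∀ x, l + 1 ≤ lg ph k U x → θ x = 1) ∧ D.Hol G ∧
      QQ D chi ph k (k - 1 - th) U (fun x => G x - θ x * U x) ≤
        ENNReal.ofReal (cM / 4 / be * Real.exp ((1 + th + be) * (l + 1))) *
          ms D chi {x | l ≤ lg ph k U x ∧ lg ph k U x ≤ l + 1} := by
  obtain ⟨M0, g, g1, g2, g3, g4, g5, g6, g7, g8, g9, g10⟩ := exists_ramp2.choose_spec
  have eM : cM / 4 = exists_ramp2.choose := by rw [cM]; ring
  rw [eM]
  generalize exists_ramp2.choose = M at *
  obtain ⟨s, hs⟩ := h.exh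
  have := hs.sigma
  have k1 : 1 ≤ k := by linarith [h.big, h.th0, h.be0]
  have k0 : 0 < k := by linarith
  have be0 := h.be0
  have d1 : ContDiff ℝ ∞ (deriv g) := (contDiff_infty_iff_deriv.1 g1).2
  have sl : D.Sm (lg ph k U) := lg_sm h.psh.1 hU.sm
  have sl' : D.Sm fun x => lg ph k U x - l := sl.sub (RD.sm_const l)
  have l0 : ∀ x, 0 ≤ lg ph k U x := lg_nonneg k0.le
  have sθ : D.Sm fun x => deriv g (lg ph k U x - l) := sl'.comp d1
  have sg : D.Sm fun x => g (lg ph k U x - l) := sl'.comp g1
  set φ : S → ℝ := fun x => ph x + chi x +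
    ((k - 1 - th - be) * lg ph k U x + be * g (lg ph k U x - l)) with hφ
  have s1 : D.Sm fun x => ph x + chi x := h.psh.1.add h.sm
  have s2 : D.Sm fun x => (k - 1 - th - be) * lg ph k U x := (RD.sm_const _).mul sl
  have s3 : D.Sm fun x => be * g (lg ph k U x - l) := (RD.sm_const _).mul sg
  have sφ : D.Sm φ := s1.add (s2.add s3)
  have lev : ∀ x ξ, be * (deriv (deriv g) (lg ph k U x - l) *
      ‖D.dbar (fun y => ((lg ph k U y - l : ℝ) : ℂ)) x ξ‖ ^ 2) ≤ D.levi φ x ξ := fun x ξ => by
    rw [hφ, RD.levi_add s1 (s2.add s3), RD.levi_add h.psh.1 h.sm, RD.levi_add s2 s3,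
      RD.levi_cmul _ sl, RD.levi_cmul _ sg,
      RD.levi_comp sl' x (g1.contDiffAt.of_le (by norm_cast)), RD.levi_sub_const sl]
    have a1 := levi_lg h.psh hU k0.le x ξ
    have a2 := h.lev x ξ
    have a3 := h.psh.2 x ξ
    have a4 := g4 (lg ph k U x - l)
    have a5 := g5 (lg ph k U x - l)
    have a6 : D.levi ph x ξ = k * (D.levi ph x ξ / k) := by field_simp
    have a7 : 0 ≤ D.levi ph x ξ / k := by positivity
    generalize D.levi ph x ξ / k = P at *
    generalize D.levi (lg ph k U) x ξ = L at *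
    generalize deriv g (lg ph k U x - l) = t at *
    have c0 : 0 ≤ k - 1 - th - be + be * t := by nlinarith [h.big]
    have c1 : k - 1 - th - be + be * t ≤ k - 1 := by nlinarith [h.th0]
    nlinarith [mul_le_mul_of_nonneg_left a1 c0, mul_le_mul_of_nonneg_right c1 a7]
  have pφ : D.Psh φ := ⟨sφ, fun x ξ => le_trans (mul_nonneg be0.le
    (mul_nonneg (g8 _) (sq_nonneg _))) (lev x ξ)⟩
  set A : Set S := {x | l ≤ lg ph k U x ∧ lg ph k U x ≤ l + 1} with hA
  have mA : MeasurableSet A := (isClosed_Icc.preimage sl.cont).measurableSet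
  have mU : Measurable fun x => ‖U x‖ ^ 2 := (hU.cont.norm.pow 2).measurable
  have sf : D.Sm fun x => ((deriv g (lg ph k U x - l) : ℝ) : ℂ) * U x :=
    sθ.ofReal.mul hU.sm
  obtain ⟨G, hG, hI⟩ := D.hormander hs pφ sf
    (h := A.indicator fun x => M / be * ‖U x‖ ^ 2) ((mU.const_mul _).indicator mA)
    (fun x => indicator_nonneg (fun y _ => by positivity) x) (fun x ξ => by
      have e : D.dbar (fun y => ((deriv g (lg ph k U y - l) : ℝ) : ℂ) * U y) x ξ =
          U x * ((deriv (deriv g) (lg ph k U x - l) : ℝ) *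
            D.dbar (fun y => ((lg ph k U y - l : ℝ) : ℂ)) x ξ) := by
        have e1 := F.dbar_holo_mul (hU x) (sθ.ofReal.diff x) ξ
        have e2 := F.dbar_comp_real (χ := deriv g) (d1.differentiable (by simp) _) (sl'.diff x) ξ
        rw [e2, D.sec_self] at e1
        refine Eq.trans ?_ e1
        rw [RD.dbar]
        simp only [mul_comm]
      rw [e, norm_mul, norm_mul, mul_pow, mul_pow, norm_real, Real.norm_eq_abs, sq_abs]
      by_cases hx : x ∈ A
      · rw [indicator_of_mem hx]
        refine le_trans ?_ (mul_le_mul_of_nonneg_left (lev x ξ) (by positivity))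
        have b1 := g8 (lg ph k U x - l)
        have b2 := g9 (lg ph k U x - l)
        have b3 := sq_nonneg ‖D.dbar (fun y => ((lg ph k U y - l : ℝ) : ℂ)) x ξ‖
        have b4 := sq_nonneg ‖U x‖
        generalize ‖D.dbar (fun y => ((lg ph k U y - l : ℝ) : ℂ)) x ξ‖ ^ 2 = q at *
        generalize deriv (deriv g) (lg ph k U x - l) = t at *
        generalize ‖U x‖ ^ 2 = u at *
        have : M / be * u * (be * (t * q)) = u * (M * t * q) := by field_simp
        rw [this]
        gcongr
        nlinarith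
      · rw [indicator_of_notMem hx, g10 _ (by
          rw [hA, mem_ofPred_eq, not_and_or, not_le, not_le] at hx
          exact hx.imp (fun a => by linarith) fun a => by linarith)]
        simp)
  refine ⟨fun x => deriv g (lg ph k U x - l), G, sθ.cont.measurable, fun x => g4 _, fun x => g5 _,
    fun x hx => g6 _ (by linarith), fun x hx => g7 _ (by linarith), hG, ?_⟩
  have me : Measurable fun x => Real.exp (-ph x) := h.psh.1.neg.rexp.cont.measurable
  have ml : Measurable fun x => Real.exp (-((k - 1 - th) * lg ph k U x)) :=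
    ((RD.sm_const _).mul sl).neg.rexp.cont.measurable
  refine (lint_ms h.sm ((((hG.cont.sub sf.cont).norm.pow 2).measurable.mul me).mul ml)).le.trans ?_
  refine le_trans (lintegral_mono fun x => ENNReal.ofReal_le_ofReal ?_) (hI.trans ?_)
  · simp only [Pi.mul_apply, Pi.pow_apply, Pi.sub_apply]
    rw [mul_assoc, mul_assoc, ← Real.exp_add, ← Real.exp_add]
    refine mul_le_mul_of_nonneg_left (Real.exp_le_exp.2 ?_) (sq_nonneg _)
    have b1 : g (lg ph k U x - l) ≤ lg ph k U x :=
      (g3 _).trans (max_le (by linarith) (l0 x))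
    simp only [hφ]
    nlinarith
  · rw [← lintegral_indicator_one mA, ← lintegral_const_mul _ (measurable_one.indicator mA)]
    have e : ∀ x, ENNReal.ofReal (M / be * Real.exp ((1 + th + be) * (l + 1))) *
        A.indicator 1 x = ENNReal.ofReal
          (A.indicator (fun _ => M / be * Real.exp ((1 + th + be) * (l + 1))) x) := fun x => by
      by_cases hx : x ∈ A <;> simp [hx]
    simp only [e]
    rw [lint_ms h.sm (measurable_const.indicator mA)]
    refine lintegral_mono fun x => ENNReal.ofReal_le_ofReal ?_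
    by_cases hx : x ∈ A
    · rw [indicator_of_mem hx, indicator_of_mem hx, mul_assoc, mul_assoc]
      refine mul_le_mul_of_nonneg_left ?_ (by positivity)
      have b1 := nrm_le (ph := ph) (U := U) k0.ne' x
      have b2 := g2 (lg ph k U x - l)
      have b3 : Real.exp (-φ x) = Real.exp (-ph x) * Real.exp (-φ x + ph x) := by
        rw [← Real.exp_add]; congr 1; ring
      rw [b3, ← mul_assoc]
      refine (mul_le_mul_of_nonneg_right b1 (Real.exp_pos _).le).trans ?_
      rw [← Real.exp_add, ← Real.exp_add, Real.exp_le_exp]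
      have b4 := hx.2
      have b5 := h.th0
      simp only [hφ]
      nlinarith
    · simp [hx]

/-- the competitor -/
theorem hor (h : Dat D chi ph k ga th be) (hU : D.Hol U) {l : ℝ} (hl : 0 ≤ l) :
    ∃ G : S → ℂ, D.Hol G ∧ QQ D chi ph k (k - 1 - th) U (fun x => G x - U x) ≠ ⊤ ∧
      2 * QQ D chi ph k (k - ga) U G ≤
      4 * ∫⁻ x in {x | l ≤ lg ph k U x}, ENNReal.ofReal (Real.exp (ga * lg ph k U x)) ∂ms D chi +
      ENNReal.ofReal (cM / be * Real.exp ((1 + th + be) * (l + 1))) *
        ms D chi {x | l ≤ lg ph k U x ∧ lg ph k U x ≤ l + 1} := by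
  obtain ⟨θ, G, mθ, t0, t1, z0, z1, hG, hQ⟩ := approx h hU hl
  have k0 : 0 < k := by linarith [h.big, h.th0, h.be0]
  have sl : D.Sm (lg ph k U) := lg_sm h.psh.1 hU.sm
  have l0 : ∀ x, 0 ≤ lg ph k U x := lg_nonneg k0.le
  have me : Measurable fun x => Real.exp (-ph x) := h.psh.1.neg.rexp.cont.measurable
  have ml : ∀ a : ℝ, Measurable fun x => Real.exp (-(a * lg ph k U x)) := fun a =>
    ((RD.sm_const _).mul sl).neg.rexp.cont.measurable
  have m1 : Measurable fun x => ‖G x - θ x * U x‖ ^ 2 * Real.exp (-ph x) *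
      Real.exp (-((k - 1 - th) * lg ph k U x)) :=
    (((hG.cont.measurable.sub ((measurable_ofReal.comp mθ).mul hU.cont.measurable)).norm.pow_const
      2).mul me).mul (ml _)
  have nr := nrm_le (ph := ph) (U := U) k0.ne'
  refine ⟨G, hG, ?_, ?_⟩
  · refine ne_top_of_le_ne_top ?_ (lint_two m1
      (h := fun _ => Real.exp ((1 + th) * (l + 1))) measurable_const (fun x => by positivity)
      (fun x => by positivity) fun x => ?_)
    · refine ENNReal.add_ne_top.2 ⟨ENNReal.mul_ne_top (by norm_num) (ne_top_of_le_ne_top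
        (ENNReal.mul_ne_top ENNReal.ofReal_ne_top (ne_top_of_le_ne_top h.fin
          (measure_mono (subset_univ _)))) hQ), ENNReal.mul_ne_top (by norm_num) ?_⟩
      rw [lintegral_const]
      exact ENNReal.mul_ne_top ENNReal.ofReal_ne_top h.fin
    · have e : G x - U x = (G x - θ x * U x) + ((θ x - 1 : ℝ) : ℂ) * U x := by push_cast; ring
      have a := nsq_add (G x - θ x * U x) (((θ x - 1 : ℝ) : ℂ) * U x)
      rw [← e, norm_mul, mul_pow, norm_real, Real.norm_eq_abs, sq_abs] at a
      have b : (θ x - 1) ^ 2 * ‖U x‖ ^ 2 * Real.exp (-ph x) *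
          Real.exp (-((k - 1 - th) * lg ph k U x)) ≤ Real.exp ((1 + th) * (l + 1)) := by
        rcases le_total (l + 1) (lg ph k U x) with hx | hx
        · rw [z1 x hx]; simp; positivity
        · have c : (θ x - 1) ^ 2 ≤ 1 := by nlinarith [t0 x, t1 x]
          calc _ ≤ 1 * Real.exp (k * lg ph k U x) * Real.exp (-((k - 1 - th) * lg ph k U x)) := by
                rw [mul_assoc ((θ x - 1) ^ 2)]
                gcongr
                exact nr x
            _ ≤ _ := by
                rw [one_mul, ← Real.exp_add, Real.exp_le_exp]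
                nlinarith [h.th0]
      have p := mul_pos (Real.exp_pos (-ph x)) (Real.exp_pos (-((k - 1 - th) * lg ph k U x)))
      nlinarith [mul_le_mul_of_nonneg_right a p.le]
  · have mB : MeasurableSet {x | l ≤ lg ph k U x} :=
      (isClosed_le continuous_const sl.cont).measurableSet
    have m2 : Measurable fun x => Real.exp (ga * lg ph k U x) :=
      ((RD.sm_const _).mul sl).rexp.cont.measurable
    have key : QQ D chi ph k (k - ga) U G ≤ _ := lint_two m1 (m2.indicator mB)
      (fun x => by positivity) (fun x => indicator_nonneg (fun y _ => by positivity) x) fun x => by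
      have e : G x = (G x - θ x * U x) + (θ x : ℂ) * U x := by ring
      have a := nsq_add (G x - θ x * U x) ((θ x : ℂ) * U x)
      rw [← e, norm_mul, mul_pow, norm_real, Real.norm_eq_abs, sq_abs] at a
      have b : θ x ^ 2 * ‖U x‖ ^ 2 * Real.exp (-ph x) * Real.exp (-((k - ga) * lg ph k U x)) ≤
          indicator {x | l ≤ lg ph k U x} (fun x => Real.exp (ga * lg ph k U x)) x := by
        by_cases hx : l ≤ lg ph k U x
        · rw [indicator_of_mem (show x ∈ {x | l ≤ lg ph k U x} from hx)]
          have c : θ x ^ 2 ≤ 1 := by nlinarith [t0 x, t1 x]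
          calc _ ≤ 1 * Real.exp (k * lg ph k U x) * Real.exp (-((k - ga) * lg ph k U x)) := by
                rw [mul_assoc (θ x ^ 2)]
                gcongr
                exact nr x
            _ = _ := by
                rw [one_mul, ← Real.exp_add]; congr 1; ring
        · rw [indicator_of_notMem (show x ∉ {x | l ≤ lg ph k U x} from hx), z0 x (not_le.1 hx)]
          simp
      have c : Real.exp (-((k - ga) * lg ph k U x)) ≤ Real.exp (-((k - 1 - th) * lg ph k U x)) :=
        Real.exp_le_exp.2 (by nlinarith [l0 x, h.ga1, h.th0])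
      have p := mul_pos (Real.exp_pos (-ph x)) (Real.exp_pos (-((k - ga) * lg ph k U x)))
      have q := mul_le_mul_of_nonneg_left c
        (mul_nonneg (sq_nonneg ‖G x - θ x * U x‖) (Real.exp_pos (-ph x)).le)
      nlinarith [mul_le_mul_of_nonneg_right a p.le]
    have e1 : ∫⁻ x, ENNReal.ofReal (indicator {x | l ≤ lg ph k U x}
        (fun x => Real.exp (ga * lg ph k U x)) x) ∂ms D chi =
        ∫⁻ x in {x | l ≤ lg ph k U x}, ENNReal.ofReal (Real.exp (ga * lg ph k U x)) ∂ms D chi := by
      rw [← lintegral_indicator mB]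
      refine lintegral_congr fun x => ?_
      by_cases hx : x ∈ {x | l ≤ lg ph k U x}
      · rw [indicator_of_mem hx, indicator_of_mem hx]
      · rw [indicator_of_notMem hx, indicator_of_notMem hx, ENNReal.ofReal_zero]
    have e2 : ENNReal.ofReal (cM / be * Real.exp ((1 + th + be) * (l + 1))) =
        4 * ENNReal.ofReal (cM / 4 / be * Real.exp ((1 + th + be) * (l + 1))) := by
      rw [← ENNReal.ofReal_ofNat 4, ← ENNReal.ofReal_mul (by norm_num)]
      congr 1
      ring
    rw [e1] at key
    rw [e2, add_comm, mul_assoc]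
    refine (mul_le_mul_right (key.trans (add_le_add_left (mul_le_mul_right hQ 2) _)) 2).trans
      (le_of_eq ?_)
    ring

end

end Pool.Agent.Lib.MP_5c318e_ag.X0
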