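import Pool.Agent.Lib.MP_5c318e_ag.X0.Hor

/-! X0: the tail lower bound for a near extremal holomorphic function. -/

set_option autoImplicit false
set_option linter.unusedSectionVars false

namespace Pool.Agent.Lib.MP_5c318e_ag.X0

open MeasureTheory Set Filter Topology Complex
open scoped ContDiff ComplexConjugate
open Pool.Agent.Lib.MP_9ff3e7_ag

noncomputable section

variable {ι : Type} [Fintype ι] {S : Type} [TopologicalSpace S] [MeasurableSpace S]
  [BorelSpace S] [T2Space S] {D : RD ι S} {chi ph : S → ℝ} {k ga th be : ℝ} {U : S → ℂ}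

theorem II_eq : II D chi ph k ga U =
    ∫⁻ x, ENNReal.ofReal ((1 + ‖U x‖ ^ 2 * Real.exp (-ph x)) ^ (ga / k)) ∂ms D chi :=
  lintegral_congr fun x => by rw [exp_mul_lg]

theorem QQ_eq (hk : k ≠ 0) (W : S → ℂ) : QQ D chi ph k (k - ga) U W =
    ∫⁻ x, ENNReal.ofReal (‖W x‖ ^ 2 * Real.exp (-ph x) *
      (1 + ‖U x‖ ^ 2 * Real.exp (-ph x)) ^ (ga / k - 1)) ∂ms D chi :=
  lintegral_congr fun x => by
    rw [← neg_mul, exp_mul_lg]
    congr 3
    field_simp
    ring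

theorem m_nrm (hph : Continuous ph) (hU : Continuous U) :
    Measurable fun x => ‖U x‖ ^ 2 * Real.exp (-ph x) :=
  ((hU.norm.pow 2).mul (Real.continuous_exp.comp hph.neg)).measurable

theorem m_pow (hph : Continuous ph) (hU : Continuous U) (p : ℝ) :
    Measurable fun x => (1 + ‖U x‖ ^ 2 * Real.exp (-ph x)) ^ p :=
  ((m_nrm hph hU).const_add 1).pow_const p

theorem nrm_smul (c : ℝ) (x : S) : ‖((c : ℂ) • U) x‖ ^ 2 * Real.exp (-ph x) =
    c ^ 2 * (‖U x‖ ^ 2 * Real.exp (-ph x)) := by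
  rw [Pi.smul_apply, norm_smul, norm_real, mul_pow, Real.norm_eq_abs, sq_abs, mul_assoc]

theorem II_up (hph : Continuous ph) (hU : Continuous U) (p0 : 0 ≤ ga / k) {c : ℝ}
    (hc : 1 ≤ c ^ 2) : II D chi ph k ga ((c : ℂ) • U) ≤
      ENNReal.ofReal ((c ^ 2) ^ (ga / k)) * II D chi ph k ga U := by
  rw [II_eq, II_eq, ← lintegral_const_mul _ (m_pow hph hU _).ennreal_ofReal]
  refine lintegral_mono fun x => ?_
  rw [← ENNReal.ofReal_mul (by positivity), nrm_smul]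
  exact ENNReal.ofReal_le_ofReal (scale_up (by positivity) p0 hc)

theorem II_down (hph : Continuous ph) (hU : Continuous U) (p0 : 0 ≤ ga / k) (p1 : ga / k ≤ 1)
    (c : ℝ) : II D chi ph k ga ((c : ℂ) • U) ≤
      ms D chi univ + ENNReal.ofReal ((c ^ 2) ^ (ga / k)) * II D chi ph k ga U := by
  rw [II_eq, II_eq, ← lintegral_const_mul _ (m_pow hph hU _).ennreal_ofReal, ← lintegral_one,
    ← lintegral_add_left measurable_const]
  refine lintegral_mono fun x => ?_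
  rw [← ENNReal.ofReal_mul (by positivity), nrm_smul, ← ENNReal.ofReal_one,
    ← ENNReal.ofReal_add zero_le_one (by positivity)]
  exact ENNReal.ofReal_le_ofReal (scale_down (by positivity) p0 p1 (sq_nonneg c))

theorem II_conc (hph : Continuous ph) (hU : Continuous U) {G : S → ℂ} (hG : Continuous G)
    (hk : k ≠ 0) (p0 : 0 ≤ ga / k) (p1 : ga / k ≤ 1) :
    II D chi ph k ga G + ENNReal.ofReal (ga / k) * QQ D chi ph k (k - ga) U U ≤
      II D chi ph k ga U + ENNReal.ofReal (ga / k) * QQ D chi ph k (k - ga) U G := by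
  rw [II_eq, II_eq, QQ_eq hk, QQ_eq hk,
    ← lintegral_const_mul' _ _ ENNReal.ofReal_ne_top, ← lintegral_const_mul' _ _ ENNReal.ofReal_ne_top,
    ← lintegral_add_left (m_pow hph hG _).ennreal_ofReal,
    ← lintegral_add_left (m_pow hph hU _).ennreal_ofReal]
  refine lintegral_mono fun x => ?_
  rw [← ENNReal.ofReal_mul p0, ← ENNReal.ofReal_mul p0,
    ← ENNReal.ofReal_add (by positivity) (by positivity),
    ← ENNReal.ofReal_add (by positivity) (by positivity)]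
  exact ENNReal.ofReal_le_ofReal (conc (by positivity) (by positivity) p0 p1)

theorem II_low (hk : k ≠ 0) (p1 : ga / k ≤ 1) :
    II D chi ph k ga U ≤ ms D chi univ + QQ D chi ph k (k - ga) U U := by
  rw [II_eq, QQ_eq hk, ← lintegral_one, ← lintegral_add_left measurable_const]
  refine lintegral_mono fun x => ?_
  rw [← ENNReal.ofReal_one, ← ENNReal.ofReal_add zero_le_one (by positivity)]
  exact ENNReal.ofReal_le_ofReal (low (by positivity) p1)

/-- functional form: no finite dimension, `xi` bounded on the constraint set -/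
theorem core (h : Dat D chi ph k ga th be) (V : Submodule ℂ (S → ℂ)) (hol : ∀ U ∈ V, D.Hol U)
    (xi : V →ₗ[ℂ] ℂ) (h0 : ∃ U : V, xi U ≠ 0 ∧ II D chi ph k ga U ≠ ⊤)
    (hb : ∃ m : ℝ, ∀ U : V, II D chi ph k ga U ≤ 2 * ms D chi univ → ‖xi U‖ ≤ m)
    (h2 : ∀ U ∈ V, ∀ W, D.Hol W → QQ D chi ph k (k - 1 - th) U W ≠ ⊤ →
      ∃ hW : W ∈ V, xi ⟨W, hW⟩ = 0) :
    ∃ U : V, xi U ≠ 0 ∧ Tail D chi ph k ga th be U := by
  have k1 : 1 ≤ k := by linarith [h.big, h.th0, h.be0]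
  have k0 : 0 < k := by linarith
  have p0 : 0 < ga / k := div_pos h.ga0 k0
  have p1 : ga / k ≤ 1 := (div_le_one k0).2 (h.ga1.trans k1)
  have cph := h.psh.1.cont
  obtain ⟨U0, x0, I0⟩ := h0
  obtain ⟨m, hm⟩ := hb
  have ne : (univ : Set S).Nonempty := by
    by_contra hn
    rw [not_nonempty_iff_eq_empty, univ_eq_empty_iff] at hn
    exact x0 (by rw [show U0 = 0 from Subtype.ext (funext fun x => hn.elim x), map_zero])
  have N0 : ms D chi univ ≠ 0 := ms_open h.sm isOpen_univ ne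
  -- a feasible point with `xi ≠ 0`
  obtain ⟨U1, x1, I1⟩ : ∃ U : V, xi U ≠ 0 ∧ II D chi ph k ga U ≤ 2 * ms D chi univ := by
    have n0 : 0 < (ms D chi univ).toReal := ENNReal.toReal_pos N0 h.fin
    have i0 : 0 ≤ (II D chi ph k ga U0).toReal := ENNReal.toReal_nonneg
    set δ := (ms D chi univ).toReal / ((II D chi ph k ga U0).toReal + 1) with hδ
    have δ0 : 0 < δ := by positivity
    have t0 : 0 < δ ^ (ga / k)⁻¹ := Real.rpow_pos_of_pos δ0 _
    refine ⟨((√(δ ^ (ga / k)⁻¹) : ℝ) : ℂ) • U0, ?_, ?_⟩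
    · rw [map_smul]
      exact smul_ne_zero (ofReal_ne_zero.2 (Real.sqrt_pos.2 t0).ne') x0
    · refine (II_down cph (hol _ U0.2).cont p0.le p1 _).trans ?_
      rw [Real.sq_sqrt t0.le, Real.rpow_inv_rpow δ0.le p0.ne', two_mul]
      refine add_le_add_right ?_ _
      rw [← ENNReal.ofReal_toReal I0, ← ENNReal.ofReal_mul δ0.le, ← ENNReal.ofReal_toReal h.fin]
      refine ENNReal.ofReal_le_ofReal ?_
      rw [hδ, div_mul_eq_mul_div, div_le_iff₀ (by positivity)]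
      nlinarith
  set T : Set ℝ := {r | ∃ U : V, II D chi ph k ga U ≤ 2 * ms D chi univ ∧ r = ‖xi U‖} with hT
  have bT : BddAbove T := ⟨m, by rintro r ⟨U, hU, rfl⟩; exact hm U hU⟩
  have s0 : 0 < sSup T := (norm_pos_iff.2 x1).trans_le (le_csSup bT ⟨U1, I1, rfl⟩)
  have c1 : 1 < Real.exp (1 / 16) := Real.one_lt_exp_iff.2 (by norm_num)
  obtain ⟨r, ⟨U, IU, rfl⟩, hr⟩ := exists_lt_of_lt_csSup (s := T) ⟨_, U1, I1, rfl⟩
    (div_lt_self s0 c1)
  rw [div_lt_iff₀ (by linarith)] at hr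
  have ec : (Real.exp (1 / 16) ^ 2) ^ (ga / k) = Real.exp (ga / k / 8) := by
    rw [← Real.exp_nat_mul, ← Real.exp_mul]; congr 1; push_cast; ring
  have near : ∀ G : V, xi G = xi U →
      2 * ms D chi univ ≤ ENNReal.ofReal (Real.exp (ga / k / 8)) * II D chi ph k ga G := by
    intro G hG
    by_contra hn
    have a := (II_up (D := D) (chi := chi) cph (hol _ G.2).cont p0.le
      (c := Real.exp (1 / 16)) (one_le_pow₀ c1.le))
    rw [ec] at a
    have b := le_csSup bT ⟨((Real.exp (1 / 16) : ℝ) : ℂ) • G, a.trans (not_le.1 hn).le, rfl⟩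
    rw [map_smul, norm_smul, norm_real, Real.norm_of_nonneg (Real.exp_pos _).le, hG] at b
    linarith
  refine ⟨U, fun hz => ?_, IU, fun l hl => ?_⟩
  · rw [hz, norm_zero, zero_mul] at hr
    linarith
  obtain ⟨G, hG, q1, q2⟩ := hor h (hol _ U.2) hl
  obtain ⟨hW, xW⟩ := h2 _ U.2 _ (hG.sub (hol _ U.2)) q1
  have e : ((U + ⟨_, hW⟩ : V) : S → ℂ) = G := by
    funext x; simp
  have a := near (U + ⟨_, hW⟩) (by rw [map_add, xW, add_zero])
  rw [e] at a
  exact (arith p0 p1 h.fin (II_conc cph (hol _ U.2).cont hG.cont k0.ne' p0.le p1) a (near U rfl)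
    (II_low k0.ne' p1) IU).trans q2

/-- on a finite dimensional space the constraint set is bounded -/
theorem bdd (hchi : D.Sm chi) (hph : Continuous ph) (p0 : 0 < ga / k) (V : Submodule ℂ (S → ℂ))
    [FiniteDimensional ℂ V] (hc : ∀ U ∈ V, Continuous U) (xi : V →ₗ[ℂ] ℂ) {C : ENNReal}
    (hC : C ≠ ⊤) : ∃ m : ℝ, ∀ U : V, II D chi ph k ga U ≤ C → ‖xi U‖ ≤ m := by
  let b := Module.finBasis ℂ V
  let e := b.equivFun.symm
  have jc : Continuous fun q : (Fin (Module.finrank ℂ V) → ℂ) × S =>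
      ‖(e q.1 : S → ℂ) q.2‖ ^ 2 * Real.exp (-ph q.2) := by
    have : ∀ q : (Fin (Module.finrank ℂ V) → ℂ) × S,
        (e q.1 : S → ℂ) q.2 = ∑ i, q.1 i * (b i : S → ℂ) q.2 := fun q => by
      simp [e, Module.Basis.equivFun_symm_apply, Finset.sum_apply]
    simp only [this]
    have := fun i => hc _ (b i).2
    fun_prop
  have loc : ∀ a ∈ Metric.sphere (0 : Fin (Module.finrank ℂ V) → ℂ) 1, ∃ m : ℝ, ∀ᶠ a' in 𝓝 a,
      ∀ r : ℝ, II D chi ph k ga ((r : ℂ) • (e a' : S → ℂ)) ≤ C → r ≤ m := fun a ha => by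
    have a0 : a ≠ 0 := by rintro rfl; simp at ha
    obtain ⟨x0, hx0⟩ : ∃ x, (e a : S → ℂ) x ≠ 0 := by
      by_contra hn
      push Not at hn
      exact a0 (e.map_eq_zero_iff.1 (Subtype.ext (funext hn)))
    set c := ‖(e a : S → ℂ) x0‖ ^ 2 * Real.exp (-ph x0) / 2 with hc'
    have c0 : 0 < c := by positivity
    have ev := jc.continuousAt (x := (a, x0)) |>.eventually (lt_mem_nhds (a := c) (by
      show c < ‖(e a : S → ℂ) x0‖ ^ 2 * Real.exp (-ph x0)
      linarith))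
    rw [nhds_prod_eq, eventually_prod_iff] at ev
    obtain ⟨pa, ha', px, hx', H⟩ := ev
    obtain ⟨O, hO, oO, xO⟩ := eventually_nhds_iff.1 hx'
    have v0 := ms_open hchi oO ⟨x0, xO⟩
    refine ⟨(C / ms D chi O).toReal ^ (ga / k)⁻¹ / c + 1, ha'.mono fun a' h' r hr => ?_⟩
    have b1 : ENNReal.ofReal ((r ^ 2 * c) ^ (ga / k)) * ms D chi O ≤ C := by
      rw [II_eq] at hr
      refine le_trans ?_ ((setLIntegral_le_lintegral O _).trans hr)
      rw [← setLIntegral_const]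
      refine setLIntegral_mono' oO.measurableSet fun x hx => ENNReal.ofReal_le_ofReal ?_
      rw [nrm_smul]
      refine Real.rpow_le_rpow (by positivity) ?_ p0.le
      nlinarith [mul_le_mul_of_nonneg_left (H h' (hO x hx)).le (sq_nonneg r)]
    have b2 : (r ^ 2 * c) ^ (ga / k) ≤ (C / ms D chi O).toReal :=
      (ENNReal.ofReal_le_iff_le_toReal (ENNReal.div_ne_top hC v0)).1
        ((ENNReal.le_div_iff_mul_le (Or.inl v0) (Or.inr hC)).2 b1)
    have b3 := (Real.le_rpow_inv_iff_of_pos (by positivity) ENNReal.toReal_nonneg p0).2 b2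
    rw [← le_div_iff₀ c0] at b3
    nlinarith [sq_nonneg (r - 1)]
  obtain ⟨m, hm⟩ : ∃ m : ℝ, ∀ a ∈ Metric.sphere (0 : Fin (Module.finrank ℂ V) → ℂ) 1,
      ∀ r : ℝ, II D chi ph k ga ((r : ℂ) • (e a : S → ℂ)) ≤ C → r ≤ m := by
    refine (isCompact_sphere _ _).induction_on (p := fun T => ∃ m : ℝ, ∀ a ∈ T,
      ∀ r : ℝ, II D chi ph k ga ((r : ℂ) • (e a : S → ℂ)) ≤ C → r ≤ m) ⟨0, by simp⟩
      (fun _ _ hst ⟨m, hm⟩ => ⟨m, fun a ha => hm a (hst ha)⟩)
      (fun _ _ ⟨m, hm⟩ ⟨m', hm'⟩ => ⟨max m m', fun a ha r hr => ha.elim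
        (fun h1 => (hm a h1 r hr).trans (le_max_left _ _))
        fun h1 => (hm' a h1 r hr).trans (le_max_right _ _)⟩) fun a ha => ?_
    obtain ⟨m, hm⟩ := loc a ha
    exact ⟨_, mem_nhdsWithin_of_mem_nhds hm, m, fun _ h1 => h1⟩
  let L := LinearMap.toContinuousLinearMap (xi.comp e.toLinearMap)
  refine ⟨‖L‖ * |m|, fun U hU => ?_⟩
  obtain ⟨a, rfl⟩ := e.surjective U
  refine (L.le_opNorm a).trans (mul_le_mul_of_nonneg_left ?_ (norm_nonneg _))
  rcases eq_or_ne a 0 with rfl | a0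
  · simp
  have n0 : (‖a‖ : ℂ) ≠ 0 := ofReal_ne_zero.2 (norm_ne_zero_iff.2 a0)
  refine (hm ((‖a‖ : ℂ)⁻¹ • a) ?_ _ ?_).trans (le_abs_self m)
  · rw [mem_sphere_zero_iff_norm, norm_smul, norm_inv, norm_real, norm_norm,
      inv_mul_cancel₀ (norm_ne_zero_iff.2 a0)]
  · rwa [map_smul, Submodule.coe_smul, smul_inv_smul₀ n0]

/-- finite dimensional form -/
theorem fin (h : Dat D chi ph k ga th be) (V V' : Submodule ℂ (S → ℂ)) [FiniteDimensional ℂ V]
    (hol : ∀ U ∈ V, D.Hol U) (h0 : ∃ U ∈ V, U ∉ V' ∧ II D chi ph k ga U ≠ ⊤)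
    (h2 : ∀ U ∈ V, ∀ W, D.Hol W → QQ D chi ph k (k - 1 - th) U W ≠ ⊤ → W ∈ V ∧ W ∈ V') :
    ∃ U ∈ V, U ∉ V' ∧ Tail D chi ph k ga th be U := by
  obtain ⟨U0, hU0, hn, I0⟩ := h0
  obtain ⟨f, f0, f1⟩ := V'.exists_dual_map_eq_bot_of_notMem hn inferInstance
  have kill : ∀ W ∈ V', f W = 0 := fun W hW =>
    (Submodule.mem_bot ℂ).1 (f1 ▸ Submodule.mem_map_of_mem hW)
  have k0 : 0 < k := by linarith [h.big, h.th0, h.be0]
  obtain ⟨U, xU, tU⟩ := core h V hol (f.comp V.subtype) ⟨⟨U0, hU0⟩, f0, I0⟩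
    (bdd h.sm h.psh.1.cont (div_pos h.ga0 k0) V (fun U hU => (hol U hU).cont) _
      (ENNReal.mul_ne_top (by norm_num) h.fin))
    fun U hU W hW hQ => ⟨(h2 U hU W hW hQ).1, kill W (h2 U hU W hW hQ).2⟩
  exact ⟨U, U.2, fun hU => xU (kill _ hU), tU⟩

/-- uniform tail: the level `l1` depends only on the measure, `ga` and the majorant `Psi` -/
theorem tail (nu : Measure S) (h0 : nu univ ≠ 0) {Psi : S → ℝ} (hm : Measurable Psi) {ga : ℝ}
    (ga0 : 0 < ga) (hI : ∫⁻ x, ENNReal.ofReal (Real.exp (ga * Psi x)) ∂nu ≠ ⊤) :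
    ∃ l1 : ℝ, 0 ≤ l1 ∧ ∀ (D : RD ι S) (chi ph : S → ℝ) (k th be : ℝ) (U : S → ℂ), ms D chi = nu →
      Tail D chi ph k ga th be U → (∀ x, lg ph k U x ≤ Psi x) → ∀ l, l1 ≤ l →
      nu univ ≤ 2 * (ENNReal.ofReal (cM / be * Real.exp ((1 + th + be) * (l + 1))) *
        nu {x | l ≤ lg ph k U x ∧ lg ph k U x ≤ l + 1}) := by
  have ms' : ∀ n : ℕ, MeasurableSet {x | (n : ℝ) ≤ Psi x} := fun n =>
    measurableSet_le measurable_const hm
  have lim := tendsto_measure_iInter_atTop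
    (μ := nu.withDensity fun x => ENNReal.ofReal (Real.exp (ga * Psi x)))
    (s := fun n : ℕ => {x | (n : ℝ) ≤ Psi x}) (fun n => (ms' n).nullMeasurableSet)
    (fun n n' hn x (hx : (n' : ℝ) ≤ Psi x) => (Nat.cast_le.2 hn).trans hx)
    ⟨0, by
      rw [withDensity_apply _ (ms' 0)]
      exact ne_top_of_le_ne_top hI (setLIntegral_le_lintegral _ _)⟩
  have em : ⋂ n : ℕ, {x | (n : ℝ) ≤ Psi x} = ∅ := eq_empty_of_forall_notMem fun x hx => by
    obtain ⟨n, hn⟩ := exists_nat_gt (Psi x)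
    exact hn.not_ge (mem_iInter.1 hx n)
  rw [em, measure_empty] at lim
  obtain ⟨n, hn⟩ := (lim.eventually (gt_mem_nhds (a := nu univ / 8)
    (ENNReal.div_pos h0 (by norm_num)))).exists
  rw [Function.comp_apply, withDensity_apply _ (ms' n)] at hn
  refine ⟨n, n.cast_nonneg, fun D chi ph k th be U e hT hP l hl => ?_⟩
  have h1 := hT.2 l (n.cast_nonneg.trans hl)
  rw [e] at h1
  have h2 : ∫⁻ x in {x | l ≤ lg ph k U x}, ENNReal.ofReal (Real.exp (ga * lg ph k U x)) ∂nu <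
      nu univ / 8 :=
    lt_of_le_of_lt ((lintegral_mono fun x => ENNReal.ofReal_le_ofReal (Real.exp_le_exp.2
      (mul_le_mul_of_nonneg_left (hP x) ga0.le))).trans
        (lintegral_mono_set fun x (hx : l ≤ _) => hl.trans (hx.trans (hP x)))) hn
  generalize ∫⁻ x in {x | l ≤ lg ph k U x}, ENNReal.ofReal (Real.exp (ga * lg ph k U x)) ∂nu = A
    at *
  generalize ENNReal.ofReal (cM / be * Real.exp ((1 + th + be) * (l + 1))) *
    nu {x | l ≤ lg ph k U x ∧ lg ph k U x ≤ l + 1} = B at *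
  generalize nu univ = N at *
  by_cases hB : B = ⊤
  · rw [hB, ENNReal.mul_top (by norm_num)]; exact le_top
  have hA : A ≠ ⊤ := h2.ne_top
  have hR : 4 * A + B ≠ ⊤ := ENNReal.add_ne_top.2 ⟨ENNReal.mul_ne_top (by norm_num) hA, hB⟩
  have hN : N ≠ ⊤ := ne_top_of_le_ne_top hR h1
  have r1 := ENNReal.toReal_mono hR h1
  have r2 := ENNReal.toReal_mono (ENNReal.div_ne_top hN (by norm_num)) h2.le
  rw [ENNReal.toReal_add (ENNReal.mul_ne_top (by norm_num) hA) hB, ENNReal.toReal_mul] at r1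
  rw [ENNReal.toReal_div] at r2
  rw [← ENNReal.toReal_le_toReal hN (ENNReal.mul_ne_top (by norm_num) hB), ENNReal.toReal_mul]
  simp only [ENNReal.toReal_ofNat] at *
  linarith

end

end Pool.Agent.Lib.MP_5c318e_ag.X0
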